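import Pool.Agent.H21.L.R_pool_sql_team_seeded_2aa45f1a.Q5.LI.KW
import Pool.Agent.H21.L.R_pool_sql_team_seeded_2aa45f1a.Q5.AP.Levy

/-!
# The converse: the characteristic functions determine the independence of the frequencies
-/

set_option autoImplicit false

open Filter Topology Set Complex MeasureTheory
open Pool.Agent.Q5.AP (M law lawP law_integral law_tendsto)

namespace Pool.Agent.Q5.LI

theorem bz_near {z : ℂ} (hz : ‖z‖ ≤ 1) : |bz z - 1| ≤ 2 * ‖z‖ ^ 2 := by
  have h1 := bz_exp hz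
  have h2 : ‖z‖ ^ 4 ≤ ‖z‖ ^ 2 := pow_le_pow_of_le_one (norm_nonneg z) hz (by norm_num)
  have h3 := sq_nonneg ‖z‖
  rw [abs_le] at h1 ⊢
  constructor <;> linarith [h1.1, h1.2]

theorem bz_cont_zero : ContinuousAt bz 0 := by
  rw [ContinuousAt, bz_zero, tendsto_iff_norm_sub_tendsto_zero]
  have h3 : Tendsto (fun z : ℂ => 2 * ‖z‖ ^ 2) (𝓝 0) (𝓝 0) := by
    have : Continuous fun z : ℂ => 2 * ‖z‖ ^ 2 := by fun_prop
    simpa using this.tendsto 0
  refine squeeze_zero' (Eventually.of_forall fun z => norm_nonneg _) ?_ h3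
  filter_upwards [Metric.ball_mem_nhds (0 : ℂ) one_pos] with z hz
  rw [Metric.mem_ball, dist_zero_right] at hz
  exact bz_near hz.le

variable {ι : Type} [Fintype ι]

/-- the point on the torus -/
noncomputable def pt (γ : ι → ℝ) (u : ℝ) : PiLp 2 (fun _ : ι => ℂ) :=
  WithLp.toLp 2 fun j => exp (γ j * I * u)

omit [Fintype ι] in
theorem pt_cont (γ : ι → ℝ) : Continuous (pt γ) :=
  (PiLp.continuous_toLp 2 fun _ : ι => ℂ).comp (by fun_prop)

theorem inner_pt (γ : ι → ℝ) (w : PiLp 2 (fun _ : ι => ℂ)) (u : ℝ) :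
    inner ℝ (pt γ u) w = tpoly γ (fun j => (starRingEnd ℂ) (w j) / 2) u := by
  rw [PiLp.inner_apply]
  unfold tpoly
  refine Finset.sum_congr rfl fun j _ => ?_
  show inner ℝ (exp (γ j * I * u)) (w j) = _
  rw [Complex.inner]
  have h : w j * (starRingEnd ℂ) (exp (γ j * I * u)) =
      (starRingEnd ℂ) ((starRingEnd ℂ) (w j) * exp (γ j * I * u)) := by
    rw [map_mul, Complex.conj_conj]
  rw [h, Complex.conj_re]
  show _ = 2 * ((starRingEnd ℂ) (w j) / 2 * exp (γ j * I * u)).re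
  have h2 : (starRingEnd ℂ) (w j) / 2 * exp (γ j * I * u) =
      (((1 / 2 : ℝ)) : ℂ) * ((starRingEnd ℂ) (w j) * exp (γ j * I * u)) := by
    push_cast
    ring
  rw [h2, Complex.re_ofReal_mul]
  ring

theorem charFun_pt (γ : ι → ℝ) (w : PiLp 2 (fun _ : ι => ℂ)) {T : ℝ} (hT : 0 < T) :
    charFun (law (pt γ) T) w =
      M (fun u => exp ((tpoly γ (fun j => (starRingEnd ℂ) (w j) / 2) u : ℂ) * I)) T := by
  have hφ : Continuous fun x : PiLp 2 (fun _ : ι => ℂ) => exp (((inner ℝ x w : ℝ) : ℂ) * I) := by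
    fun_prop
  rw [charFun_apply, law_integral (pt_cont γ).measurable hφ.stronglyMeasurable hT]
  unfold M
  simp only [inner_pt]
  rw [Complex.real_smul]
  push_cast
  ring

/-- the limiting law on the torus -/
theorem law_pt {γ : ι → ℝ}
    (h : ∀ z : ι → ℂ, Tendsto (M fun u => exp ((tpoly γ z u : ℂ) * I)) atTop
      (𝓝 ((∏ j, bz (z j) : ℝ) : ℂ))) :
    ∃ ν : ProbabilityMeasure (PiLp 2 (fun _ : ι => ℂ)),
      (∀ w, charFun (ν : Measure (PiLp 2 (fun _ : ι => ℂ))) w =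
        ((∏ j, bz ((starRingEnd ℂ) (w j) / 2) : ℝ) : ℂ)) ∧
      Tendsto (lawP (pt_cont γ).measurable) atTop (𝓝 ν) := by
  refine law_tendsto (pt_cont γ).measurable (Φ := fun w => ((∏ j, bz ((starRingEnd ℂ) (w j) / 2) : ℝ) : ℂ))
    ?_ fun w => ?_
  · refine (Complex.continuous_ofReal.continuousAt).comp ?_
    refine tendsto_finsetProd _ fun j _ => ?_
    have h1 : Tendsto (fun w : PiLp 2 (fun _ : ι => ℂ) => (starRingEnd ℂ) (w j) / 2) (𝓝 0) (𝓝 0) := by
      have hc : Continuous fun w : PiLp 2 (fun _ : ι => ℂ) => (starRingEnd ℂ) (w j) / 2 := by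
        have h2 : Continuous fun w : PiLp 2 (fun _ : ι => ℂ) => w j :=
          (continuous_apply j).comp (PiLp.continuous_ofLp 2 fun _ : ι => ℂ)
        exact (Complex.continuous_conj.comp h2).div_const 2
      have h3 := hc.tendsto 0
      simpa using h3
    have h2 : Tendsto bz (𝓝 0) (𝓝 (bz 0)) := bz_cont_zero
    have h3 := h2.comp h1
    have e : bz ((starRingEnd ℂ) ((0 : PiLp 2 (fun _ : ι => ℂ)) j) / 2) = bz 0 := by simp
    rw [e]
    exact h3
  · refine (h fun j => (starRingEnd ℂ) (w j) / 2).congr' ?_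
    filter_upwards [eventually_gt_atTop 0] with T hT
    exact (charFun_pt γ w hT).symm

/-- retraction to the disc -/
noncomputable def rt (w : ℂ) : ℂ := w / (max 1 ‖w‖ : ℝ)

theorem rt_cont : Continuous rt := by
  unfold rt
  refine Continuous.div continuous_id (by fun_prop) fun w => ?_
  have : (0 : ℝ) < max 1 ‖w‖ := lt_max_of_lt_left one_pos
  exact_mod_cast this.ne'

theorem rt_norm (w : ℂ) : ‖rt w‖ ≤ 1 := by
  have h : (0 : ℝ) < max 1 ‖w‖ := lt_max_of_lt_left one_pos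
  unfold rt
  rw [norm_div, Complex.norm_real, Real.norm_of_nonneg h.le, div_le_one h]
  exact le_max_right _ _

theorem rt_of {w : ℂ} (hw : ‖w‖ = 1) : rt w = w := by
  unfold rt
  rw [hw]
  simp

/-- the monomial `w^m` on the circle -/
noncomputable def mon (m : ℤ) (w : ℂ) : ℂ :=
  if 0 ≤ m then rt w ^ m.toNat else (starRingEnd ℂ) (rt w) ^ (-m).toNat

theorem mon_cont (m : ℤ) : Continuous (mon m) := by
  unfold mon
  have h := rt_cont
  split_ifs
  · exact h.pow _
  · exact (Complex.continuous_conj.comp h).pow _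

theorem mon_norm (m : ℤ) (w : ℂ) : ‖mon m w‖ ≤ 1 := by
  unfold mon
  split_ifs
  · rw [norm_pow]
    exact pow_le_one₀ (norm_nonneg _) (rt_norm w)
  · rw [norm_pow, RCLike.norm_conj]
    exact pow_le_one₀ (norm_nonneg _) (rt_norm w)

theorem mon_exp (m : ℤ) (x : ℝ) : mon m (exp (x * I)) = exp (((m * x : ℝ) : ℂ) * I) := by
  have h1 : ‖exp (x * I)‖ = 1 := Complex.norm_exp_ofReal_mul_I x
  unfold mon
  rw [rt_of h1]
  split_ifs with h
  · rw [← Complex.exp_nat_mul]
    congr 1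
    obtain ⟨k, rfl⟩ := Int.eq_ofNat_of_zero_le h
    simp only [Int.toNat_natCast]
    push_cast
    ring
  · rw [← Complex.exp_conj, ← Complex.exp_nat_mul]
    congr 1
    push Not at h
    obtain ⟨k, hk⟩ : ∃ k : ℕ, m = -(k : ℤ) := ⟨(-m).toNat, by omega⟩
    subst hk
    simp
    ring

/-- the test function -/
noncomputable def tst (n : ι → ℤ) (w : PiLp 2 (fun _ : ι => ℂ)) : ℂ := ∏ j, mon (n j) (w j)

theorem tst_cont (n : ι → ℤ) : Continuous (tst n) := by
  unfold tst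
  refine continuous_finsetProd _ fun j _ => (mon_cont (n j)).comp ?_
  exact (continuous_apply j).comp (PiLp.continuous_ofLp 2 fun _ : ι => ℂ)

theorem tst_norm (n : ι → ℤ) (w : PiLp 2 (fun _ : ι => ℂ)) : ‖tst n w‖ ≤ 1 := by
  unfold tst
  rw [norm_prod]
  exact Finset.prod_le_one (fun j _ => norm_nonneg _) fun j _ => mon_norm _ _

theorem tst_pt (n : ι → ℤ) (γ : ι → ℝ) (u : ℝ) :
    tst n (pt γ u) = 1 * exp (((∑ j, (n j : ℝ) * γ j : ℝ) : ℂ) * I * u) := by
  unfold tst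
  have h : ∀ j, mon (n j) ((pt γ u) j) = exp ((((n j : ℝ) * (γ j * u) : ℝ) : ℂ) * I) := by
    intro j
    have h1 : (pt γ u) j = exp (((γ j * u : ℝ) : ℂ) * I) := by
      show exp (γ j * I * u) = _
      congr 1
      push_cast
      ring
    rw [h1, mon_exp]
  simp only [h]
  rw [← Complex.exp_sum, one_mul]
  congr 1
  push_cast
  rw [Finset.sum_mul, Finset.sum_mul]
  refine Finset.sum_congr rfl fun j _ => ?_
  ring

theorem tst_lim {γ : ι → ℝ} {ν : ProbabilityMeasure (PiLp 2 (fun _ : ι => ℂ))}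
    (h : Tendsto (lawP (pt_cont γ).measurable) atTop (𝓝 ν)) (n : ι → ℤ) :
    ∫ w, tst n w ∂(ν : Measure (PiLp 2 (fun _ : ι => ℂ))) =
      if ∑ j, (n j : ℝ) * γ j = 0 then 1 else 0 := by
  rw [ProbabilityMeasure.tendsto_iff_forall_integral_rclike_tendsto ℂ] at h
  have h1 := h (BoundedContinuousFunction.ofNormedAddCommGroup (tst n) (tst_cont n) 1 (tst_norm n))
  have h2 := mean_exp 1 (∑ j, (n j : ℝ) * γ j)
  refine tendsto_nhds_unique h1 (h2.congr' ?_)
  filter_upwards [eventually_gt_atTop 0] with T hT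
  have h3 := law_integral (pt_cont γ).measurable (tst_cont n).stronglyMeasurable hT
  show _ = ∫ w, tst n w ∂(law (pt γ) T)
  rw [h3]
  unfold M
  simp only [tst_pt]
  rw [Complex.real_smul]
  push_cast
  ring

/-- there are integrally independent reals -/
theorem exists_indep (ι : Type) [Fintype ι] :
    ∃ γ : ι → ℝ, ∀ n : ι → ℤ, ∑ j, (n j : ℝ) * γ j = 0 → n = 0 := by
  have h1 : ((Fintype.card ι : ℕ) : Cardinal) ≤ Module.rank ℚ ℝ := by
    rw [Real.rank_rat_real]
    exact (Cardinal.natCast_lt_aleph0).le.trans Cardinal.aleph0_le_continuum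
  obtain ⟨s, hs, hli⟩ := le_rank_iff_exists_linearIndependent_finset.1 h1
  obtain ⟨e⟩ : Nonempty (ι ≃ s) := ⟨(Fintype.equivFinOfCardEq rfl).trans (Finset.equivFinOfCardEq hs).symm⟩
  refine ⟨fun j => (e j : ℝ), fun n hn => ?_⟩
  have h2 : LinearIndependent ℚ fun j : ι => ((e j : s) : ℝ) := hli.comp e e.injective
  rw [Fintype.linearIndependent_iff] at h2
  have h3 := h2 (fun j => (n j : ℚ)) (by
    rw [← hn]
    refine Finset.sum_congr rfl fun j _ => ?_
    rw [Rat.smul_def]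
    push_cast
    rfl)
  funext j
  have := h3 j
  exact_mod_cast this

/-- **The converse of Kronecker–Weyl.** -/
theorem li_of_kw {γ : ι → ℝ}
    (h : ∀ z : ι → ℂ, Tendsto (M fun u => exp ((tpoly γ z u : ℂ) * I)) atTop
      (𝓝 ((∏ j, bz (z j) : ℝ) : ℂ))) (n : ι → ℤ) (hn : ∑ j, (n j : ℝ) * γ j = 0) : n = 0 := by
  obtain ⟨γ', hγ'⟩ := exists_indep ι
  obtain ⟨ν, h1, h2⟩ := law_pt h
  obtain ⟨ν', h1', h2'⟩ := law_pt fun z => kw_of_li hγ' z
  have e : (ν : Measure (PiLp 2 (fun _ : ι => ℂ))) = ν' :=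
    Measure.ext_of_charFun (funext fun w => by rw [h1, h1'])
  have h3 := tst_lim h2 n
  have h4 := tst_lim h2' n
  rw [← e, h3, if_pos hn] at h4
  by_contra hne
  rw [if_neg fun h5 => hne (hγ' n h5)] at h4
  exact one_ne_zero h4

end Pool.Agent.Q5.LI
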