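import Pool.Agent.H21.L.R_pool_sql_team_seeded_2aa45f1a.Q5.LI.MainA

/-!
# The random model forces linear independence
-/

set_option autoImplicit false

open Filter Topology Set Complex MeasureTheory
open Pool.Agent.Q5.AP

namespace Pool.Agent.Q5.LI

/-- the averaged multiplier -/
noncomputable def KN (l : ℝ) (S : Finset ℝ) (v : ℝ → ℂ) (N : ℕ) (t : ℝ) : ℂ :=
  ∑ s ∈ S, (v s * DN N ((t - s) * l) + (starRingEnd ℂ) (v s) * DN N ((t + s) * l))

/-- the limit multiplier -/
noncomputable def Ki (S : Finset ℝ) (v : ℝ → ℂ) (t : ℝ) : ℂ :=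
  (if t ∈ S then v t else 0) + if -t ∈ S then (starRingEnd ℂ) (v (-t)) else 0

/-- the weights -/
noncomputable def xiN (l : ℝ) (S : Finset ℝ) (v : ℝ → ℂ) (N : ℕ) (j : Fin N) : ℝ :=
  (∑ s ∈ S, 2 * (v s * exp ((-(s * (j : ℝ) * l) : ℝ) * I)).re) / N

/-- the shifts -/
noncomputable def hN (l : ℝ) (N : ℕ) (j : Fin N) : ℝ := (j : ℝ) * l

theorem kf_eq (l : ℝ) (S : Finset ℝ) (v : ℝ → ℂ) (N : ℕ) (t : ℝ) :
    kf (hN l N) (xiN l S v N) t = KN l S v N t := by
  unfold kf KN DN xiN hN
  have h1 : ∀ (x : ℝ) (j : ℕ), v x * exp ((((j : ℝ) * ((t - x) * l) : ℝ) : ℂ) * I) +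
      (starRingEnd ℂ) (v x) * exp ((((j : ℝ) * ((t + x) * l) : ℝ) : ℂ) * I) =
      ((2 * (v x * exp ((-(x * (j : ℝ) * l) : ℝ) * I)).re : ℝ) : ℂ) *
        exp ((t * ((j : ℝ) * l) : ℝ) * I) := by
    intro x j
    have h2 := Complex.add_conj (v x * exp ((-(x * (j : ℝ) * l) : ℝ) * I))
    have hr : ∀ a b c d e : ℂ, (a * b + c * d) * e = a * (b * e) + c * (d * e) := by
      intros
      ring
    rw [← h2, map_mul, ← Complex.exp_conj, hr, ← Complex.exp_add, ← Complex.exp_add]
    congr 3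
    · push_cast
      ring
    · rw [map_mul, Complex.conj_ofReal, Complex.conj_I]
      push_cast
      ring
  have h2 : ∀ x ∈ S, v x * ((∑ j ∈ Finset.range N, exp ((((j : ℝ) * ((t - x) * l) : ℝ) : ℂ) * I)) / N) +
      (starRingEnd ℂ) (v x) * ((∑ j ∈ Finset.range N, exp ((((j : ℝ) * ((t + x) * l) : ℝ) : ℂ) * I)) / N) =
      ∑ j ∈ Finset.range N, ((2 * (v x * exp ((-(x * (j : ℝ) * l) : ℝ) * I)).re : ℝ) : ℂ) / N *
        exp ((t * ((j : ℝ) * l) : ℝ) * I) := by
    intro x _
    rw [mul_div_assoc', mul_div_assoc', ← add_div, Finset.mul_sum, Finset.mul_sum,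
      ← Finset.sum_add_distrib, Finset.sum_div]
    refine Finset.sum_congr rfl fun j _ => ?_
    rw [h1]
    ring
  rw [Finset.sum_congr rfl h2, Finset.sum_comm,
    Finset.sum_range fun j => ∑ x ∈ S, ((2 * (v x * exp ((-(x * (j : ℝ) * l) : ℝ) * I)).re : ℝ) : ℂ) / N *
        exp ((t * ((j : ℝ) * l) : ℝ) * I)]
  refine Finset.sum_congr rfl fun j _ => ?_
  rw [← Finset.sum_mul, ← Finset.sum_div]
  push_cast
  rfl

theorem KN_norm (l : ℝ) (S : Finset ℝ) (v : ℝ → ℂ) (N : ℕ) (t : ℝ) :
    ‖KN l S v N t‖ ≤ ∑ s ∈ S, 2 * ‖v s‖ := by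
  unfold KN
  refine (norm_sum_le _ _).trans (Finset.sum_le_sum fun s _ => ?_)
  refine (norm_add_le _ _).trans ?_
  rw [norm_mul, norm_mul, RCLike.norm_conj]
  have h1 := mul_le_mul_of_nonneg_left (DN_norm N ((t - s) * l)) (norm_nonneg (v s))
  have h2 := mul_le_mul_of_nonneg_left (DN_norm N ((t + s) * l)) (norm_nonneg (v s))
  linarith

theorem Ki_norm (S : Finset ℝ) (v : ℝ → ℂ) (t : ℝ) : ‖Ki S v t‖ ≤ ∑ s ∈ S, 2 * ‖v s‖ := by
  unfold Ki
  have h1 : ∀ t ∈ S, ‖v t‖ ≤ ∑ s ∈ S, ‖v s‖ := fun t ht =>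
    Finset.single_le_sum (f := fun s => ‖v s‖) (fun i _ => norm_nonneg _) ht
  have h0 : 0 ≤ ∑ s ∈ S, ‖v s‖ := Finset.sum_nonneg fun j _ => norm_nonneg _
  rw [← Finset.mul_sum]
  refine (norm_add_le _ _).trans ?_
  have h2 : ‖(if t ∈ S then v t else 0)‖ ≤ ∑ s ∈ S, ‖v s‖ := by
    split_ifs with h
    · exact h1 t h
    · rwa [norm_zero]
  have h3 : ‖(if -t ∈ S then (starRingEnd ℂ) (v (-t)) else 0)‖ ≤ ∑ s ∈ S, ‖v s‖ := by
    split_ifs with h
    · rw [RCLike.norm_conj]
      exact h1 (-t) h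
    · rwa [norm_zero]
  linarith

theorem DN_lim {l x : ℝ} (h : x ≠ 0 → exp ((l * x : ℝ) * I) ≠ 1) :
    Tendsto (fun N => DN N (x * l)) atTop (𝓝 (if x = 0 then 1 else 0)) := by
  split_ifs with hx
  · refine tendsto_const_nhds.congr' ?_
    filter_upwards [eventually_gt_atTop 0] with N hN
    rw [hx, zero_mul, DN_zero hN]
  · refine DN_tendsto ?_
    have := h hx
    rwa [mul_comm l x] at this

theorem KN_tendsto {l : ℝ} {S : Finset ℝ} (v : ℝ → ℂ) {t : ℝ}
    (h1 : ∀ s ∈ S, t - s ≠ 0 → exp ((l * (t - s) : ℝ) * I) ≠ 1)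
    (h2 : ∀ s ∈ S, t + s ≠ 0 → exp ((l * (t + s) : ℝ) * I) ≠ 1) :
    Tendsto (fun N => KN l S v N t) atTop (𝓝 (Ki S v t)) := by
  have h3 : Tendsto (fun N => KN l S v N t) atTop
      (𝓝 (∑ s ∈ S, (v s * (if t - s = 0 then 1 else 0) + (starRingEnd ℂ) (v s) *
        (if t + s = 0 then 1 else 0)))) :=
    tendsto_finsetSum _ fun s hs => ((DN_lim (h1 s hs)).const_mul _).add ((DN_lim (h2 s hs)).const_mul _)
  convert! h3 using 2
  unfold Ki
  rw [Finset.sum_add_distrib]
  congr 1
  · have e : ∀ s : ℝ, v s * (if t - s = 0 then 1 else 0) = if t = s then v s else 0 := by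
      intro s
      by_cases h : t = s
      · rw [if_pos (by rw [h, sub_self]), if_pos h, mul_one]
      · rw [if_neg fun h' => h (sub_eq_zero.1 h'), if_neg h, mul_zero]
    simp only [e]
    rw [Finset.sum_ite_eq]
  · have e : ∀ s : ℝ, (starRingEnd ℂ) (v s) * (if t + s = 0 then 1 else 0) =
        if -t = s then (starRingEnd ℂ) (v s) else 0 := by
      intro s
      by_cases h : -t = s
      · rw [if_pos (by rw [← h, add_neg_cancel]), if_pos h, mul_one]
      · rw [if_neg fun h' => h (by linarith), if_neg h, mul_zero]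
    simp only [e]
    rw [Finset.sum_ite_eq]

variable {f : ℝ → ℝ} {m : ℝ → ℕ} {V : ℝ}

/-- **the laws of the trigonometric polynomials** -/
theorem poly_law (P : Par (fun u => (f u : ℂ)) (cm m) V) (hm : ∀ t, m (-t) = m t) (hM : Model m f)
    (S : Finset ℝ) (hS : ∀ s ∈ S, 0 < s) (v : ℝ → ℂ) :
    Tendsto (M fun u => exp ((tpoly (fun j : S => (j : ℝ)) (fun j : S => cm m j * v j) u : ℂ) * I)) atTop
      (𝓝 ((∏ t ∈ S, bz (v t / t) ^ m t : ℝ) : ℂ)) := by
  classical
  -- a generic step
  have hsupp : {t : ℝ | cm m t ≠ 0}.Countable := by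
    have h1 := P.pa.summable.countable_support
    refine h1.mono fun t ht => ?_
    have : cm m t ≠ 0 := ht
    show ‖cm m t‖ ^ 2 ≠ 0
    exact pow_ne_zero _ (norm_ne_zero_iff.2 this)
  set D : Set ℝ := ⋃ s ∈ S, ((fun t => t - s) '' {t : ℝ | cm m t ≠ 0} ∪
    (fun t => t + s) '' {t : ℝ | cm m t ≠ 0}) with hD
  have hDc : D.Countable := S.countable_toSet.biUnion fun s _ =>
    (hsupp.image _).union (hsupp.image _)
  obtain ⟨l, hl0, hl⟩ := exists_step hDc
  have hKN : ∀ t, cm m t ≠ 0 → Tendsto (fun N => KN l S v N t) atTop (𝓝 (Ki S v t)) := by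
    intro t ht
    refine KN_tendsto v (fun s hs h0 => ?_) fun s hs h0 => ?_
    · refine hl _ ?_ h0
      rw [hD]
      simp only [Set.mem_iUnion]
      exact ⟨s, hs, Or.inl ⟨t, ht, rfl⟩⟩
    · refine hl _ ?_ h0
      rw [hD]
      simp only [Set.mem_iUnion]
      exact ⟨s, hs, Or.inr ⟨t, ht, rfl⟩⟩
  set C : ℝ := ∑ s ∈ S, 2 * ‖v s‖ with hC
  have hC0 : 0 ≤ C := Finset.sum_nonneg fun s _ => by positivity
  -- the laws of the averages
  have hmod : ∀ N : ℕ, ∃ L : ℂ, HasProd (fun t : ℝ => ((fac m (KN l S v N t) t : ℝ) : ℂ)) L ∧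
      Tendsto (M fun u => exp (((∑ j, xiN l S v N j * f (u + hN l N j) : ℝ) : ℂ) * I)) atTop (𝓝 L) := by
    intro N
    obtain ⟨L, h1, h2⟩ := hM N (hN l N) (xiN l S v N) fun j => by
      unfold hN
      positivity
    refine ⟨L, ?_, h2⟩
    simp only [kf_eq] at h1
    exact h1
  choose L hL1 hL2 using hmod
  have hcomb : ∀ N : ℕ, ∃ U : ℝ, Par (fun u => ((∑ j, xiN l S v N j * f (u + hN l N j) : ℝ) : ℂ))
      (fun t => cm m t * KN l S v N t) U := by
    intro N
    obtain ⟨U, hU⟩ := comb P (hN l N) (xiN l S v N) fun j => by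
      unfold hN
      positivity
    refine ⟨U, ?_⟩
    simp only [kf_eq] at hU
    exact hU
  choose U hU using hcomb
  -- the polynomial
  obtain ⟨U', hU'⟩ := par_tpoly (fun j : S => (j : ℝ)) (fun j : S => cm m j * v j)
  obtain ⟨z, hz⟩ := Par.exp_mean (g := tpoly (fun j : S => (j : ℝ)) (fun j : S => cm m j * v j)) hU'
  have htco : ∀ t, tco (fun j : S => (j : ℝ)) (fun j : S => cm m j * v j) t = cm m t * Ki S v t := by
    intro t
    rw [tco_eq S fun t => cm m t * v t]
    unfold Ki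
    rw [mul_add]
    congr 1
    · split_ifs
      · rfl
      · rw [mul_zero]
    · split_ifs
      · rw [map_mul, cm_conj hm]
      · rw [mul_zero]
  -- the limit of the laws
  have hlim1 : Tendsto L atTop (𝓝 z) := by
    rw [tendsto_iff_norm_sub_tendsto_zero]
    have hDN : ∀ N : ℕ, ∃ W : ℝ, ‖L N - z‖ ≤ √W ∧
        HasSum (fun t => ‖cm m t * (KN l S v N t - Ki S v t)‖ ^ 2) W := by
      intro N
      have h1 := (hU N).add (hU'.const_mul (-1))
      set W : ℝ := U N + ‖(-1 : ℂ)‖ ^ 2 * U' + 2 * (∑' t, cm m t * KN l S v N t * (starRingEnd ℂ)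
        (-1 * tco (fun j : S => (j : ℝ)) (fun j : S => cm m j * v j) t)).re with hW
      have hD : Par (fun u => ((∑ j, xiN l S v N j * f (u + hN l N j) : ℝ) : ℂ) -
          (tpoly (fun j : S => (j : ℝ)) (fun j : S => cm m j * v j) u : ℂ))
          (fun t => cm m t * KN l S v N t + -1 * tco (fun j : S => (j : ℝ)) (fun j : S => cm m j * v j) t)
          W := by
        convert! h1 using 1
        funext u
        ring
      refine ⟨W, exp_lip (G := fun u => ∑ j, xiN l S v N j * f (u + hN l N j))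
        (P := tpoly (fun j : S => (j : ℝ)) (fun j : S => cm m j * v j)) (hU N).loc
        hU'.loc hD (hL2 N) hz, ?_⟩
      convert! hD.pa using 1
      funext t
      rw [htco]
      congr 2
      ring
    choose W hW1 hW2 using hDN
    have hW3 : Tendsto W atTop (𝓝 0) := by
      have h1 : W = fun N => ∑' t, ‖cm m t * (KN l S v N t - Ki S v t)‖ ^ 2 :=
        funext fun N => (hW2 N).tsum_eq.symm
      rw [h1]
      have h2 : Tendsto (fun N => ∑' t, ‖cm m t * (KN l S v N t - Ki S v t)‖ ^ 2) atTop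
          (𝓝 (∑' _ : ℝ, (0 : ℝ))) := by
        refine tendsto_tsum_of_dominated_convergence (bound := fun t => ‖cm m t‖ ^ 2 * (2 * C) ^ 2)
          (P.pa.summable.mul_right _) (fun t => ?_) (Eventually.of_forall fun N t => ?_)
        · by_cases ht : cm m t = 0
          · simp only [ht, zero_mul, norm_zero]
            simp
          · have h3 := ((hKN t ht).sub_const (Ki S v t)).const_mul (cm m t)
            rw [sub_self, mul_zero] at h3
            have h4 := (h3.norm).pow 2
            rw [norm_zero] at h4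
            simpa using h4
        · rw [Real.norm_eq_abs, abs_of_nonneg (by positivity), norm_mul, mul_pow]
          have h3 : ‖KN l S v N t - Ki S v t‖ ≤ 2 * C := by
            refine (norm_sub_le _ _).trans ?_
            have := KN_norm l S v N t
            have := Ki_norm S v t
            linarith
          gcongr
      rwa [tsum_zero] at h2
    have h5 : Tendsto (fun N => √(W N)) atTop (𝓝 0) := by
      have := (Real.continuous_sqrt.tendsto 0).comp hW3
      rwa [Real.sqrt_zero] at this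
    exact squeeze_zero (fun N => norm_nonneg _) hW1 h5
  have hlim2 : Tendsto L atTop (𝓝 ((∏ t ∈ S, bz (v t / t) ^ m t : ℝ) : ℂ)) := by
    have h1 : L = fun N => ∏' t, (1 + (((fac m (KN l S v N t) t : ℝ) : ℂ) - 1)) := by
      funext N
      rw [← (hL1 N).tprod_eq]
      refine tprod_congr fun t => ?_
      ring
    have h2 : Tendsto (fun N => ∏' t, (1 + (((fac m (KN l S v N t) t : ℝ) : ℂ) - 1))) atTop
        (𝓝 (∏' t, (1 + (((fac m (Ki S v t) t : ℝ) : ℂ) - 1)))) := by
      refine tendsto_tprod_one_add_of_dominated_convergence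
        (bound := fun t => 2 * C ^ 2 * ‖cm m t‖ ^ 2) (P.pa.summable.mul_left _) (fun t => ?_)
        (Eventually.of_forall fun N t => fac_near m _ (KN_norm l S v N t) t)
      refine Tendsto.sub_const ?_ 1
      refine (Complex.continuous_ofReal.tendsto _).comp ?_
      unfold fac
      split_ifs with ht
      · by_cases hmt : m t = 0
        · rw [hmt]
          simp
        · have hne : cm m t ≠ 0 := by
            rw [← norm_ne_zero_iff, norm_cm]
            have h3 : (m t : ℝ) ≠ 0 := by exact_mod_cast hmt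
            positivity
          refine Tendsto.pow ?_ _
          exact (bz_cont.tendsto _).comp ((hKN t hne).div_const _)
      · exact tendsto_const_nhds
    rw [h1]
    convert! h2 using 2
    have h3 : ∀ t ∉ S, (1 + (((fac m (Ki S v t) t : ℝ) : ℂ) - 1)) = 1 := by
      intro t ht
      unfold fac
      split_ifs with h0
      · have h4 : Ki S v t = 0 := by
          unfold Ki
          rw [if_neg ht, if_neg fun h' => by linarith [hS _ h'], add_zero]
        rw [h4, zero_div, bz_zero, one_pow]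
        simp
      · simp
    rw [tprod_eq_prod h3, Complex.ofReal_prod]
    refine Finset.prod_congr rfl fun t ht => ?_
    unfold fac
    have h5 : Ki S v t = v t := by
      unfold Ki
      rw [if_pos ht, if_neg fun h' => by linarith [hS _ h', hS _ ht], add_zero]
    rw [if_pos (hS t ht), h5]
    ring
  rw [← tendsto_nhds_unique hlim1 hlim2]
  exact hz

/-- the second order terms determine the exponent -/
theorem exponent_one {n : ℕ} (hn : n ≠ 0) (h : ∀ y : ℝ, 0 < y → bz ((n : ℂ) * y) = bz y ^ n) : n = 1 := by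
  have key : ∀ c : ℝ, 0 < c → Tendsto (fun y : ℝ => (1 - bz ((c * y : ℝ) : ℂ)) / y ^ 2) (𝓝[>] 0)
      (𝓝 (c ^ 2)) := by
    intro c hc
    rw [tendsto_iff_norm_sub_tendsto_zero]
    have h1 : Tendsto (fun y : ℝ => c ^ 4 * y ^ 2) (𝓝[>] 0) (𝓝 0) := by
      have h2 : Continuous fun y : ℝ => c ^ 4 * y ^ 2 := by fun_prop
      have h3 := h2.tendsto 0
      simp only [ne_eq, OfNat.ofNat_ne_zero, not_false_eq_true, zero_pow, mul_zero] at h3
      exact h3.mono_left nhdsWithin_le_nhds
    refine squeeze_zero' (Eventually.of_forall fun y => norm_nonneg _) ?_ h1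
    have h4 : Ioo (0 : ℝ) c⁻¹ ∈ 𝓝[>] (0 : ℝ) := Ioo_mem_nhdsGT (by positivity)
    filter_upwards [h4] with y hy
    have hy0 : 0 < y := hy.1
    have h5 : ‖((c * y : ℝ) : ℂ)‖ = c * y := by
      rw [Complex.norm_real, Real.norm_of_nonneg (by positivity)]
    have h6 := bz_exp (z := ((c * y : ℝ) : ℂ)) (by
      rw [h5]
      have := mul_lt_mul_of_pos_left hy.2 hc
      rw [mul_inv_cancel₀ hc.ne'] at this
      exact this.le)
    rw [h5] at h6
    have h7 : (1 - bz ((c * y : ℝ) : ℂ)) / y ^ 2 - c ^ 2 =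
        -(bz ((c * y : ℝ) : ℂ) - (1 - (c * y) ^ 2)) / y ^ 2 := by
      field_simp
      ring
    rw [h7, Real.norm_eq_abs, abs_div, abs_neg, abs_of_pos (by positivity : 0 < y ^ 2),
      div_le_iff₀ (by positivity)]
    refine h6.trans (le_of_eq ?_)
    ring
  have hn0 : (0 : ℝ) < n := by exact_mod_cast Nat.pos_of_ne_zero hn
  have h1 := key n hn0
  have h2 := key 1 one_pos
  simp only [one_mul, one_pow] at h2
  have h3 : Tendsto (fun y : ℝ => ∑ i ∈ Finset.range n, bz (y : ℂ) ^ i) (𝓝[>] 0) (𝓝 n) := by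
    have h4 : Tendsto (fun y : ℝ => ∑ i ∈ Finset.range n, bz (y : ℂ) ^ i) (𝓝[>] 0)
        (𝓝 (∑ i ∈ Finset.range n, (1 : ℝ) ^ i)) := by
      refine tendsto_finsetSum _ fun i _ => Tendsto.pow ?_ i
      have h5 : Tendsto (fun y : ℝ => bz (y : ℂ)) (𝓝 0) (𝓝 (bz ((0 : ℝ) : ℂ))) :=
        (bz_cont.comp Complex.continuous_ofReal).tendsto 0
      rw [Complex.ofReal_zero, bz_zero] at h5
      exact h5.mono_left nhdsWithin_le_nhds
    simpa using h4
  have h4 := h2.mul h3
  have h5 : Tendsto (fun y : ℝ => (1 - bz ((n * y : ℝ) : ℂ)) / y ^ 2) (𝓝[>] 0) (𝓝 (1 * (n : ℝ))) := by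
    refine h4.congr' ?_
    filter_upwards [self_mem_nhdsWithin] with y hy
    have h6 := h y hy
    have h7 : ((n * y : ℝ) : ℂ) = (n : ℂ) * y := by push_cast; rfl
    rw [h7, h6]
    have h8 := geom_sum_mul (bz (y : ℂ)) n
    have h9 : 1 - bz (y : ℂ) ^ n = (1 - bz (y : ℂ)) * ∑ i ∈ Finset.range n, bz (y : ℂ) ^ i := by
      linarith
    rw [h9]
    ring
  have h6 := tendsto_nhds_unique h1 h5
  have h7 : (n : ℝ) = 1 := by
    rw [one_mul, sq] at h6
    exact mul_left_cancel₀ hn0.ne' (by rw [mul_one]; exact h6)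
  exact_mod_cast h7

/-- **The random model forces linear independence.** -/
theorem li_of_model (P : Par (fun u => (f u : ℂ)) (cm m) V) (hm : ∀ t, m (-t) = m t) (hM : Model m f) :
    LinInd m := by
  classical
  have hone : ∀ t : ℝ, 0 < t → m t ≤ 1 := by
    intro t ht
    by_cases hmt : m t = 0
    · rw [hmt]
      exact Nat.zero_le _
    · refine (exponent_one hmt fun y hy => ?_).le
      have h1 := poly_law P hm hM {t} (fun s hs => by rwa [Finset.mem_singleton.1 hs]) fun _ => t * y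
      have h2 := kw_of_li (γ := fun j : ({t} : Finset ℝ) => (j : ℝ)) (fun n hn => by
        funext j
        have hj : ∀ j : ({t} : Finset ℝ), (j : ℝ) = t := fun j => Finset.mem_singleton.1 j.2
        have huniq : ∀ i : ({t} : Finset ℝ), i = j := fun i => Subtype.ext (by rw [hj, hj])
        rw [Fintype.sum_eq_single j fun i hi => absurd (huniq i) hi, hj] at hn
        rcases mul_eq_zero.1 hn with h | h
        · exact_mod_cast h
        · exact absurd h ht.ne') (fun j : ({t} : Finset ℝ) => cm m j * (t * y))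
      have h3 := tendsto_nhds_unique h1 h2
      rw [Finset.prod_singleton, Finset.prod_coe_sort ({t} : Finset ℝ) fun x => bz (cm m x * (t * y)),
        Finset.prod_singleton] at h3
      have h4 : bz ((t : ℂ) * y / t) ^ m t = bz (cm m t * (t * y)) := by exact_mod_cast h3
      have htc : (t : ℂ) ≠ 0 := by exact_mod_cast ht.ne'
      rw [mul_div_cancel_left₀ _ htc] at h4
      rw [h4]
      refine bz_norm ?_
      rw [norm_mul, norm_mul, norm_mul, norm_cm, Complex.norm_natCast, Complex.norm_real,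
        Complex.norm_real, Real.norm_eq_abs, Real.norm_eq_abs, abs_of_pos ht]
      field_simp
  refine ⟨hone, ?_⟩
  have key : ∀ S : Finset ℝ, (∀ t ∈ S, 0 < t ∧ m t ≠ 0) → ∀ n : S → ℤ,
      ∑ j, (n j : ℝ) * (j : ℝ) = 0 → n = 0 := by
    intro S hS
    refine li_of_kw fun w => ?_
    set v : ℝ → ℂ := fun t => if ht : t ∈ S then w ⟨t, ht⟩ / cm m t else 0 with hv
    have h1 := poly_law P hm hM S (fun s hs => (hS s hs).1) v
    have hne : ∀ t ∈ S, cm m t ≠ 0 := by
      intro t ht
      obtain ⟨h2, h3⟩ := hS t ht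
      rw [← norm_ne_zero_iff, norm_cm]
      have h4 : (m t : ℝ) ≠ 0 := by exact_mod_cast h3
      positivity
    have e1 : (fun j : S => cm m j * v j) = w := by
      funext j
      rw [hv]
      simp only
      rw [dif_pos j.2, mul_div_cancel₀ _ (hne j j.2)]
    rw [e1] at h1
    convert! h1 using 2
    congr 1
    rw [← Finset.prod_coe_sort S fun t => bz (v t / t) ^ m t]
    refine Finset.prod_congr rfl fun j _ => ?_
    obtain ⟨h2, h3⟩ := hS j j.2
    have h4 : m j = 1 := by
      have := hone j h2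
      omega
    rw [h4, pow_one]
    refine bz_norm ?_
    rw [hv]
    simp only
    rw [dif_pos j.2, norm_div, norm_div, norm_cm, h4, Complex.norm_real, Real.norm_eq_abs,
      Nat.cast_one, abs_of_pos h2]
    field_simp
  refine linearIndepOn_of_finite _ fun T hT hfin => ?_
  have h1 : LinearIndepOn ℚ id ((hfin.toFinset : Finset ℝ) : Set ℝ) := by
    have h2 : LinearIndependent ℤ fun j : hfin.toFinset => (j : ℝ) := by
      rw [Fintype.linearIndependent_iff]
      intro g hg i
      have h3 := key hfin.toFinset (fun t ht => hT (by simpa using ht)) g (by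
        rw [← hg]
        refine Finset.sum_congr rfl fun j _ => ?_
        rw [zsmul_eq_mul])
      exact congrFun h3 i
    have h4 := (LinearIndependent.iff_fractionRing (R := ℤ) (K := ℚ)).1 h2
    exact h4
  rwa [hfin.coe_toFinset] at h1

end Pool.Agent.Q5.LI
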