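import Pool.Agent.H21.L.R_pool_sql_team_seeded_2aa45f1a.Q5.LI.ParT
import Pool.Agent.H21.L.R_pool_sql_team_seeded_2aa45f1a.Q5.LI.Avg

/-!
# Linear independence and the random model
-/

set_option autoImplicit false

open Filter Topology Set Complex MeasureTheory
open Pool.Agent.Q5.AP

namespace Pool.Agent.Q5.LI

/-! ### the function `bz` -/

theorem bz_norm {z w : ℂ} (h : ‖z‖ = ‖w‖) : bz z = bz w := by
  unfold bz bt
  rw [h]

theorem bz_cont : Continuous bz := by
  rw [continuous_iff_continuousAt]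
  intro z₀
  have h1 : ContinuousOn bz (Metric.ball z₀ 1) := by
    unfold bz
    refine continuousOn_tsum (u := fun k => ((‖z₀‖ + 1) ^ 2) ^ k / (k.factorial : ℝ)) (fun k => ?_)
      (Real.summable_pow_div_factorial _) fun k z hz => ?_
    · unfold bt
      fun_prop
    · have h2 : ‖z‖ ≤ ‖z₀‖ + 1 := by
        rw [Metric.mem_ball, dist_eq_norm] at hz
        have := norm_add_le z₀ (z - z₀)
        rw [add_sub_cancel] at this
        linarith
      refine (bt_le z k).trans ?_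
      gcongr
  exact h1.continuousAt (Metric.ball_mem_nhds _ one_pos)

theorem exp_mean_le {g : ℝ → ℝ} {z : ℂ} (h : Tendsto (M fun u => exp ((g u : ℂ) * I)) atTop (𝓝 z)) :
    ‖z‖ ≤ 1 := by
  refine le_of_tendsto h.norm ?_
  filter_upwards [eventually_gt_atTop 0] with T hT
  unfold M
  rw [norm_div, Complex.norm_real, Real.norm_of_nonneg hT.le, div_le_one hT]
  have h1 := intervalIntegral.norm_integral_le_of_norm_le_const (a := (0 : ℝ)) (b := T)
    (f := fun u => exp ((g u : ℂ) * I)) (C := 1) fun u _ => by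
      rw [Complex.norm_exp_ofReal_mul_I]
  rwa [sub_zero, abs_of_pos hT, one_mul] at h1

theorem bz_abs (z : ℂ) : |bz z| ≤ 1 := by
  have h1 := kw_of_li (ι := Unit) (γ := fun _ => 1) (fun n hn => by
    funext j
    simpa using hn) (fun _ => z)
  have h2 := exp_mean_le h1
  rw [Complex.norm_real, Real.norm_eq_abs] at h2
  simpa using h2

theorem bz_sub_one (z : ℂ) : |bz z - 1| ≤ 2 * ‖z‖ ^ 2 := by
  by_cases h : ‖z‖ ≤ 1
  · exact bz_near h
  · push Not at h
    have h1 := bz_abs z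
    rw [abs_le] at h1
    have h2 : |bz z - 1| ≤ 2 := by
      rw [abs_le]
      constructor <;> linarith [h1.1, h1.2]
    have h3 : 1 ≤ ‖z‖ ^ 2 := one_le_pow₀ h.le
    linarith

theorem pow_sub_one {b : ℝ} (hb : |b| ≤ 1) (n : ℕ) : |b ^ n - 1| ≤ n * |b - 1| := by
  induction n with
  | zero => simp
  | succ n ih =>
    have e : b ^ (n + 1) - 1 = b * (b ^ n - 1) + (b - 1) := by ring
    rw [e]
    refine (abs_add_le _ _).trans ?_
    rw [abs_mul]
    have h1 : |b| * |b ^ n - 1| ≤ 1 * |b ^ n - 1| := mul_le_mul_of_nonneg_right hb (abs_nonneg _)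
    push_cast
    linarith

/-! ### definitions -/

/-- the multiset in which `t > 0` occurs `m t` times is linearly independent over `ℚ` -/
def LinInd (m : ℝ → ℕ) : Prop :=
  (∀ t : ℝ, 0 < t → m t ≤ 1) ∧ LinearIndepOn ℚ id {t : ℝ | 0 < t ∧ m t ≠ 0}

/-- `∑ ξ_j e^{i t h_j}` -/
noncomputable def kf {k : ℕ} (h ξ : Fin k → ℝ) (t : ℝ) : ℂ := ∑ j, (ξ j : ℂ) * exp ((t * h j : ℝ) * I)

/-- the factor of the characteristic function at the frequency `t` -/
noncomputable def fac (m : ℝ → ℕ) (K : ℂ) (t : ℝ) : ℝ := if 0 < t then bz (K / t) ^ m t else 1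

/-- the random model for the function `f` -/
def Model (m : ℝ → ℕ) (f : ℝ → ℝ) : Prop :=
  ∀ (k : ℕ) (h ξ : Fin k → ℝ), (∀ j, 0 ≤ h j) →
    ∃ L : ℂ, HasProd (fun t : ℝ => ((fac m (kf h ξ t) t : ℝ) : ℂ)) L ∧
      Tendsto (M fun u => exp (((∑ j, ξ j * f (u + h j) : ℝ) : ℂ) * I)) atTop (𝓝 L)

theorem fac_near (m : ℝ → ℕ) (K : ℂ) {C : ℝ} (hK : ‖K‖ ≤ C) (t : ℝ) :
    ‖((fac m K t : ℝ) : ℂ) - 1‖ ≤ 2 * C ^ 2 * ‖cm m t‖ ^ 2 := by
  rw [norm_cm_sq]
  unfold fac
  split_ifs with ht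
  · have h1 : ((bz (K / t) ^ m t : ℝ) : ℂ) - 1 = ((bz (K / t) ^ m t - 1 : ℝ) : ℂ) := by push_cast; rfl
    rw [h1, Complex.norm_real, Real.norm_eq_abs]
    refine (pow_sub_one (bz_abs _) _).trans ?_
    have h2 := bz_sub_one (K / t)
    rw [norm_div, Complex.norm_real, Real.norm_of_nonneg ht.le] at h2
    have h3 : (‖K‖ / t) ^ 2 ≤ (C / t) ^ 2 := by gcongr
    have h4 : (m t : ℝ) ≤ (m t : ℝ) ^ 2 := by
      rcases Nat.eq_zero_or_pos (m t) with h | h
      · rw [h]
        simp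
      · have : (1 : ℝ) ≤ m t := by exact_mod_cast h
        nlinarith
    calc (m t : ℝ) * |bz (K / t) - 1| ≤ (m t : ℝ) ^ 2 * (2 * (C / t) ^ 2) := by
          refine mul_le_mul h4 (h2.trans ?_) (abs_nonneg _) (by positivity)
          linarith
      _ = 2 * C ^ 2 * ((m t : ℝ) / t) ^ 2 := by
        field_simp
  · simp only [Complex.ofReal_one, sub_self, norm_zero]
    positivity

theorem cm_conj {m : ℝ → ℕ} (hm : ∀ t, m (-t) = m t) (t : ℝ) :
    (starRingEnd ℂ) (cm m (-t)) = cm m t := by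
  unfold cm
  rw [hm]
  simp

theorem kf_conj {k : ℕ} (h ξ : Fin k → ℝ) (t : ℝ) : (starRingEnd ℂ) (kf h ξ (-t)) = kf h ξ t := by
  unfold kf
  rw [map_sum]
  refine Finset.sum_congr rfl fun j _ => ?_
  rw [map_mul, Complex.conj_ofReal, ← Complex.exp_conj]
  congr 2
  simp

theorem tco_eq (S : Finset ℝ) (z : ℝ → ℂ) (t : ℝ) :
    tco (fun j : S => (j : ℝ)) (fun j : S => z j) t =
      (if t ∈ S then z t else 0) + if -t ∈ S then (starRingEnd ℂ) (z (-t)) else 0 := by
  unfold tco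
  rw [Finset.sum_add_distrib]
  congr 1
  · rw [Finset.sum_coe_sort S fun x => if t = x then z x else 0, Finset.sum_ite_eq]
  · rw [Finset.sum_coe_sort S fun x => if t = -x then (starRingEnd ℂ) (z x) else 0]
    have e : ∀ x : ℝ, (if t = -x then (starRingEnd ℂ) (z x) else 0) =
        if -t = x then (starRingEnd ℂ) (z x) else 0 := by
      intro x
      by_cases h : t = -x
      · rw [if_pos h, if_pos (by rw [h, neg_neg])]
      · rw [if_neg h, if_neg fun h' => h (by rw [← h', neg_neg])]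
    simp only [e]
    rw [Finset.sum_ite_eq]

variable {f : ℝ → ℝ} {m : ℝ → ℕ} {V : ℝ}

/-- combinations of shifts -/
theorem comb (P : Par (fun u => (f u : ℂ)) (cm m) V) {k : ℕ} (h ξ : Fin k → ℝ) (hh : ∀ j, 0 ≤ h j) :
    ∃ U : ℝ, Par (fun u => ((∑ j, ξ j * f (u + h j) : ℝ) : ℂ)) (fun t => cm m t * kf h ξ t) U := by
  have h1 : ∀ j ∈ (Finset.univ : Finset (Fin k)), Par (fun u => (ξ j : ℂ) * (f (u + h j) : ℂ))
      (fun t => (ξ j : ℂ) * (cm m t * exp ((t * h j : ℝ) * I))) (‖(ξ j : ℂ)‖ ^ 2 * V) :=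
    fun j _ => (Par.shift P (hh j)).const_mul _
  obtain ⟨U, hU⟩ := par_sum Finset.univ h1
  refine ⟨U, ?_⟩
  convert! hU using 1
  · funext u
    push_cast
    rfl
  · funext t
    unfold kf
    rw [Finset.mul_sum]
    refine Finset.sum_congr rfl fun j _ => ?_
    ring

theorem li_sub (h : LinInd m) (S : Finset ℝ) (hS : ∀ t ∈ S, 0 < t ∧ m t ≠ 0) (n : S → ℤ)
    (hn : ∑ j, (n j : ℝ) * (j : ℝ) = 0) : n = 0 := by
  have h1 : LinearIndependent ℚ fun x : {t : ℝ | 0 < t ∧ m t ≠ 0} => id (x : ℝ) := h.2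
  have h2 := h1.comp (fun j : S => (⟨(j : ℝ), hS j j.2⟩ : {t : ℝ | 0 < t ∧ m t ≠ 0}))
    fun x y hxy => Subtype.ext (by simpa using congrArg Subtype.val hxy)
  rw [Fintype.linearIndependent_iff] at h2
  have h3 := h2 (fun j => (n j : ℚ)) (by
    refine Eq.trans (Finset.sum_congr rfl fun j _ => ?_) hn
    rw [Rat.smul_def]
    push_cast
    rfl)
  funext j
  have := h3 j
  exact_mod_cast this

/-- **The random model under linear independence.** -/
theorem model_of_li (P : Par (fun u => (f u : ℂ)) (cm m) V) (hm : ∀ t, m (-t) = m t) (hli : LinInd m) :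
    Model m f := by
  classical
  intro k h ξ hh
  obtain ⟨U, hU⟩ := comb P h ξ hh
  set G : ℝ → ℝ := fun u => ∑ j, ξ j * f (u + h j) with hG
  obtain ⟨z, hz⟩ := Par.exp_mean (g := G) hU
  refine ⟨z, ?_, hz⟩
  set b : ℝ → ℂ := fun t => cm m t * kf h ξ t with hb
  have hbc : ∀ t, (starRingEnd ℂ) (b (-t)) = b t := by
    intro t
    rw [hb]
    simp only
    rw [map_mul, cm_conj hm, kf_conj]
  have hb0 : ∀ t, m t = 0 → b t = 0 := by
    intro t ht
    rw [hb]
    simp only
    unfold cm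
    rw [ht]
    simp
  have hb00 : b 0 = 0 := by
    rw [hb]
    simp only
    rw [cm_zero, zero_mul]
  rw [HasProd, Metric.tendsto_nhds]
  intro ε hε
  have hev : ∀ᶠ S₁ : Finset ℝ in atTop, dist (∑ t ∈ S₁, ‖b t‖ ^ 2) U < ε ^ 2 :=
    (Metric.tendsto_nhds.1 hU.pa) (ε ^ 2) (by positivity)
  obtain ⟨S₁, hS₁⟩ := hev.exists
  rw [Real.dist_eq, abs_lt] at hS₁
  filter_upwards [eventually_ge_atTop (S₁.image fun t => |t|)] with S hS
  rw [dist_comm, dist_eq_norm]
  set Sp : Finset ℝ := S.filter fun t => 0 < t ∧ m t ≠ 0 with hSp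
  have hSpos : ∀ t ∈ Sp, 0 < t ∧ m t ≠ 0 := fun t ht => (Finset.mem_filter.1 ht).2
  have hkw := kw_of_li (γ := fun j : Sp => (j : ℝ)) (fun n hn => li_sub hli Sp hSpos n hn)
    (fun j : Sp => b j)
  have hprod : ∏ t ∈ S, ((fac m (kf h ξ t) t : ℝ) : ℂ) = ((∏ j : Sp, bz (b j) : ℝ) : ℂ) := by
    rw [← Complex.ofReal_prod]
    congr 1
    rw [Finset.prod_coe_sort Sp fun x => bz (b x), hSp, Finset.prod_filter]
    refine Finset.prod_congr rfl fun t _ => ?_
    unfold fac
    by_cases ht : 0 < t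
    · by_cases hmt : m t = 0
      · rw [if_pos ht, hmt, pow_zero, if_neg fun h' => h'.2 rfl]
      · have h1 : m t = 1 := by
          have := hli.1 t ht
          omega
        rw [if_pos ht, if_pos ⟨ht, hmt⟩, h1, pow_one]
        refine bz_norm ?_
        rw [hb]
        simp only
        rw [norm_mul, norm_cm, h1, norm_div, Complex.norm_real, Real.norm_eq_abs, Nat.cast_one]
        ring
    · rw [if_neg ht, if_neg fun h' => ht h'.1]
  rw [hprod]
  obtain ⟨U', hU'⟩ := par_tpoly (fun j : Sp => (j : ℝ)) (fun j : Sp => b j)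
  have hD0 := hU.add (hU'.const_mul (-1))
  set W : ℝ := U + ‖(-1 : ℂ)‖ ^ 2 * U' + 2 * (∑' t, b t * (starRingEnd ℂ)
    (-1 * tco (fun j : Sp => (j : ℝ)) (fun j : Sp => b j) t)).re with hW
  have hD : Par (fun u => (G u : ℂ) - (tpoly (fun j : Sp => (j : ℝ)) (fun j : Sp => b j) u : ℂ))
      (fun t => b t + -1 * tco (fun j : Sp => (j : ℝ)) (fun j : Sp => b j) t) W := by
    convert! hD0 using 1
    funext u
    ring
  have hlip := exp_lip (G := G) (P := tpoly (fun j : Sp => (j : ℝ)) (fun j : Sp => b j)) hU.loc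
    hU'.loc hD hz hkw
  refine hlip.trans_lt ?_
  have hW2 : W + ∑ t ∈ S₁, ‖b t‖ ^ 2 ≤ U := by
    have h1 : HasSum (fun t => if t ∈ S₁ then ‖b t‖ ^ 2 else 0) (∑ t ∈ S₁, ‖b t‖ ^ 2) := by
      have h0 : HasSum (fun t => if t ∈ S₁ then ‖b t‖ ^ 2 else 0)
          (∑ t ∈ S₁, if t ∈ S₁ then ‖b t‖ ^ 2 else 0) :=
        hasSum_sum_of_ne_finset_zero fun t ht => by rw [if_neg ht]
      convert! h0 using 1
      refine Finset.sum_congr rfl fun t ht => ?_
      rw [if_pos ht]
    refine hasSum_le (fun t => ?_) (hD.pa.add h1) hU.pa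
    rw [tco_eq]
    by_cases h1 : t ∈ Sp
    · have h2 : -t ∉ Sp := fun h' => by linarith [(hSpos _ h').1, (hSpos _ h1).1]
      rw [if_pos h1, if_neg h2]
      have e : b t + -1 * (b t + 0) = 0 := by ring
      rw [e, norm_zero]
      split_ifs
      · simp
      · simp
    · by_cases h2 : -t ∈ Sp
      · rw [if_neg h1, if_pos h2, hbc]
        have e : b t + -1 * (0 + b t) = 0 := by ring
        rw [e, norm_zero]
        split_ifs
        · simp
        · simp
      · rw [if_neg h1, if_neg h2, add_zero, mul_zero, add_zero]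
        split_ifs with h3
        · have h4 : |t| ∈ S := hS (Finset.mem_image_of_mem _ h3)
          have h5 : b t = 0 := by
            by_contra hne
            have ht0 : t ≠ 0 := fun h' => hne (by rw [h', hb00])
            have hmt : m t ≠ 0 := fun h' => hne (hb0 t h')
            rcases lt_or_gt_of_ne ht0 with h6 | h6
            · refine h2 (Finset.mem_filter.2 ⟨?_, by linarith, by rwa [hm]⟩)
              rwa [abs_of_neg h6] at h4
            · refine h1 (Finset.mem_filter.2 ⟨?_, h6, hmt⟩)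
              rwa [abs_of_pos h6] at h4
          rw [h5]
          simp
        · simp
  have h1 : W < ε ^ 2 := by linarith [hS₁.1]
  have h2 := hD.nonneg
  calc √W < √(ε ^ 2) := Real.sqrt_lt_sqrt h2 h1
    _ = ε := Real.sqrt_sq hε.le

end Pool.Agent.Q5.LI
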